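import Mathlib

namespace Pool.Agent.Results.MP_5814e0_lc.Exists

open FirstOrder FirstOrder.Language

variable (L : FirstOrder.Language.{0, 0}) (M : Type) [L.Structure M]

/-- externally definable 2-colourings of the embeddings of `A` into `M` -/
def ExtDef {A : Type} [L.Structure A] (χ : (A ↪[L] M) → Fin 2) : Prop :=
  ∃ (N : Type) (_ : L.Structure N) (j : M ↪ₑ[L] N) (k : ℕ) (e : Fin k → N)
    (φ : Fin 2 → L.Formula (Fin k ⊕ A)),
    ∀ a i, χ a = i ↔ (φ i).Realize (Sum.elim e (fun x => j (a x)))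

/-- `χ` is constant on the copies of `A` inside `S` -/
def Mono {A : Type} [L.Structure A] (χ : (A ↪[L] M) → Fin 2) (S : Set M) : Prop :=
  ∀ a b : A ↪[L] M, Set.range a ⊆ S → Set.range b ⊆ S → χ a = χ b

/-- every externally definable colouring has a monochromatic copy of `B` inside `D` -/
def Arrow (A B : Type) [L.Structure A] [L.Structure B] (D : Set M) : Prop :=
  ∀ χ : (A ↪[L] M) → Fin 2, ExtDef L M χ →
    ∃ g : B ↪[L] M, Set.range g ⊆ D ∧ Mono L M χ (Set.range g)

attribute [local instance] Language.emptyStructure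

def emb {A B : Type} (f : A ↪ B) : A ↪[Language.empty] B :=
  { f with map_fun' := fun f => f.elim, map_rel' := fun r => r.elim }

def eqv {A : Type} (f : A ≃ A) : A ≃[Language.empty] A :=
  { f with map_fun' := fun f => f.elim, map_rel' := fun r => r.elim }

theorem ultra : Language.empty.IsUltrahomogeneous ℕ := by
  intro S hS f
  have : Finite S := hS.finite
  have hf : Function.Injective (fun x : S => (f x : ℕ)) :=
    @Embedding.injective _ _ _ Substructure.inducedStructure _ f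
  obtain ⟨g, hg⟩ := Equiv.Perm.exists_extending_pair (fun x : S => (x : ℕ)) (fun x => f x)
    Subtype.val_injective hf
  exact ⟨eqv g, @Embedding.ext _ _ _ Substructure.inducedStructure _ _ _ fun x => (hg x).symm⟩

theorem two_cases {u v : ℕ} (h : u ≠ v) (a : Fin 2 ↪[Language.empty] ℕ)
    (h0 : a 0 = u ∨ a 0 = v) (h1 : a 1 = u ∨ a 1 = v) :
    (a 0 = u ∧ a 1 = v) ∨ (a 0 = v ∧ a 1 = u) := by
  have : a 0 ≠ a 1 := fun e => absurd (a.injective e) (by decide)
  omega

theorem arrow_all : Arrow Language.empty ℕ (Fin 2) (Fin 2) Set.univ := by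
  classical
  rintro χ ⟨N, sN, j, k, e, φ, hφ⟩
  have hs : sN = Language.emptyStructure := Subsingleton.elim _ _
  subst hs
  have hfin : (j ⁻¹' Set.range e).Finite :=
    (Set.finite_range e).preimage j.injective.injOn
  obtain ⟨u, hu, v, hv, huv⟩ := hfin.infinite_compl.nontrivial
  let g : Fin 2 ↪[Language.empty] ℕ := emb ⟨![u, v], by
    intro x y h
    fin_cases x <;> fin_cases y <;> simp_all [eq_comm]⟩
  have hr : ∀ a : Fin 2 ↪[Language.empty] ℕ, Set.range a ⊆ Set.range g →
      (a 0 = u ∧ a 1 = v) ∨ (a 0 = v ∧ a 1 = u) := fun a ha => by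
    have key : ∀ i, a i = u ∨ a i = v := fun i => by
      obtain ⟨x, hx⟩ := ha ⟨i, rfl⟩
      rw [← hx]
      fin_cases x
      · exact Or.inl rfl
      · exact Or.inr rfl
    exact two_cases huv a (key 0) (key 1)
  have hsw : ∀ a b : Fin 2 ↪[Language.empty] ℕ, a 0 = u → a 1 = v → b 0 = v → b 1 = u →
      χ a = χ b := fun a b a0 a1 b0 b1 => by
    symm
    rw [hφ]
    have h1 := (hφ a _).1 rfl
    rw [← StrongHomClass.realize_formula (eqv (Equiv.swap (j u) (j v)))] at h1
    convert h1 using 1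
    funext x
    rcases x with x | x
    · exact (Equiv.swap_apply_of_ne_of_ne (fun h => hu ⟨x, h⟩) (fun h => hv ⟨x, h⟩)).symm
    · show j (b x) = Equiv.swap (j u) (j v) (j (a x))
      fin_cases x
      · simp [a0, b0]
      · simp [a1, b1]
  have hext : ∀ a b : Fin 2 ↪[Language.empty] ℕ, a 0 = b 0 → a 1 = b 1 → χ a = χ b :=
    fun a b h0 h1 => by
      congr 1
      ext x
      fin_cases x
      · exact h0
      · exact h1
  refine ⟨g, Set.subset_univ _, fun a b ha hb => ?_⟩
  rcases hr a ha with ⟨a0, a1⟩ | ⟨a0, a1⟩ <;> rcases hr b hb with ⟨b0, b1⟩ | ⟨b0, b1⟩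
  · exact hext a b (a0.trans b0.symm) (a1.trans b1.symm)
  · exact hsw a b a0 a1 b0 b1
  · exact (hsw b a b0 b1 a0 a1).symm
  · exact hext a b (a0.trans b0.symm) (a1.trans b1.symm)

theorem not_arrow (D : Set ℕ) (hD : D.Finite) :
    ¬ Arrow Language.empty ℕ (Fin 2) (Fin 2) D := by
  classical
  intro h
  obtain ⟨k, hk⟩ := hD.bddAbove
  let ψ : Language.empty.Formula (Fin (k + 1) ⊕ Fin 2) :=
    Formula.iSup (fun p : {p : Fin (k + 1) × Fin (k + 1) // p.1 < p.2} =>
      (Term.equal (Term.var (Sum.inr 0)) (Term.var (Sum.inl p.1.1))) ⊓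
        (Term.equal (Term.var (Sum.inr 1)) (Term.var (Sum.inl p.1.2))))
  have hψ : ∀ a : Fin 2 ↪[Language.empty] ℕ,
      ψ.Realize (Sum.elim (fun i : Fin (k + 1) => (i : ℕ)) (fun x => a x)) ↔
        a 0 < a 1 ∧ a 1 ≤ k := fun a => by
    simp only [ψ, Formula.realize_iSup, Formula.realize_inf, Formula.realize_equal,
      Term.realize_var, Sum.elim_inl, Sum.elim_inr]
    constructor
    · rintro ⟨⟨⟨p, q⟩, hpq⟩, h0, h1⟩
      have : (p : ℕ) < q := hpq
      have := q.2
      simp only at h0 h1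
      omega
    · rintro ⟨h0, h1⟩
      exact ⟨⟨(⟨a 0, by omega⟩, ⟨a 1, by omega⟩), h0⟩, rfl, rfl⟩
  obtain ⟨g, hg, hm⟩ := h (fun a => if a 0 < a 1 ∧ a 1 ≤ k then 0 else 1)
    ⟨ℕ, inferInstance, ElementaryEmbedding.refl _ _, k + 1, fun i => (i : ℕ), ![ψ, ψ.not],
      fun a i => by
        fin_cases i
        · show _ ↔ ψ.Realize (Sum.elim (fun i : Fin (k + 1) => (i : ℕ)) (fun x => a x))
          rw [hψ]
          by_cases h1 : a 0 < a 1 ∧ a 1 ≤ k <;> simp [h1]
        · show _ ↔ ψ.not.Realize (Sum.elim (fun i : Fin (k + 1) => (i : ℕ)) (fun x => a x))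
          rw [Formula.realize_not, hψ]
          by_cases h1 : a 0 < a 1 ∧ a 1 ≤ k <;> simp [h1]⟩
  let g' : Fin 2 ↪[Language.empty] ℕ := g.comp (emb (Equiv.swap 0 1).toEmbedding)
  have h1 := hm g g' subset_rfl (by rintro _ ⟨x, rfl⟩; exact ⟨_, rfl⟩)
  have e0 : g' 0 = g 1 := rfl
  have e1 : g' 1 = g 0 := rfl
  have k0 : g 0 ≤ k := hk (hg ⟨0, rfl⟩)
  have k1 : g 1 ≤ k := hk (hg ⟨1, rfl⟩)
  have : g 0 ≠ g 1 := fun e => absurd (g.injective e) (by decide)
  simp only [e0, e1] at h1
  split_ifs at h1 with a b b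
  · omega
  · exact absurd h1 (by decide)
  · exact absurd h1 (by decide)
  · omega

theorem result : ∃ (L : FirstOrder.Language.{0, 0}) (M A B : Type) (_ : L.Structure M) (_ : L.Structure A)
    (_ : L.Structure B), L.IsRelational ∧ Countable L.Symbols ∧ Countable M ∧ Infinite M ∧
    L.IsUltrahomogeneous M ∧ Finite A ∧ Finite B ∧ Nonempty (A ↪[L] M) ∧ Nonempty (B ↪[L] M) ∧
    Arrow L M A B Set.univ ∧
    ∀ (C : Type) [L.Structure C] [Finite C] (h : C ↪[L] M), ¬ Arrow L M A B (Set.range h) :=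
  ⟨Language.empty, ℕ, Fin 2, Fin 2, inferInstance, inferInstance, inferInstance, inferInstance,
    inferInstance, inferInstance, inferInstance, ultra, inferInstance, inferInstance,
    ⟨emb Fin.valEmbedding⟩, ⟨emb Fin.valEmbedding⟩, arrow_all,
    fun _ _ _ h => not_arrow _ (Set.finite_range h)⟩

end Pool.Agent.Results.MP_5814e0_lc.Exists
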